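import Pool.Agent.U26.TK.Space

/-!
# Small covers, Hausdorff dimension and volumes of neighbourhoods of finite unions of affine copies
-/

open Set Metric Filter Topology MeasureTheory TopologicalSpace
open scoped ENNReal NNReal

namespace Pool.Agent.U26.TK

noncomputable section

variable {n : ℕ}

theorem small_of_zero {s : ℝ} (hs : 0 < s) {A : Set (EuclideanSpace ℝ (Fin n))} (h : μH[s] A = 0) {ε : ℝ≥0∞} (hε : 0 < ε) :
    Small s ε A := by
  rw [Measure.hausdorffMeasure_apply] at h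
  have h1 : (⨅ (t : ℕ → Set (EuclideanSpace ℝ (Fin n))) (_ : A ⊆ ⋃ n, t n) (_ : ∀ n, ediam (t n) ≤ 1),
      ∑' n, ⨆ _ : (t n).Nonempty, ediam (t n) ^ s) ≤ 0 := by
    rw [← h]
    exact le_iSup₂ (f := fun (r : ℝ≥0∞) (_ : 0 < r) =>
      ⨅ (t : ℕ → Set (EuclideanSpace ℝ (Fin n))) (_ : A ⊆ ⋃ n, t n) (_ : ∀ n, ediam (t n) ≤ r),
        ∑' n, ⨆ _ : (t n).Nonempty, ediam (t n) ^ s) 1 one_pos
  have hε2 : 0 < ε / 2 := ENNReal.half_pos hε.ne'
  have h2 := h1.trans_lt hε2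
  simp only [iInf_lt_iff] at h2
  obtain ⟨t, hA, hd, hsum⟩ := h2
  obtain ⟨η, hη, hηs⟩ := ENNReal.exists_pos_sum_of_countable' hε2.ne' ℕ
  have key : ∀ i, ∃ r : ℝ≥0, 0 < r ∧ ediam (thickening r (t i)) ^ s ≤
      (⨆ _ : (t i).Nonempty, ediam (t i) ^ s) + η i := fun i => by
    rcases (t i).eq_empty_or_nonempty with he | hne
    · refine ⟨1, one_pos, ?_⟩
      rw [he, thickening_empty, ediam_empty, ENNReal.zero_rpow_of_pos hs]
      exact zero_le
    · have hfin : ediam (t i) ≠ ∞ := ((hd i).trans_lt ENNReal.one_lt_top).ne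
      have hc : Tendsto (fun r : ℝ≥0 => (ediam (t i) + 2 * (r : ℝ≥0∞)) ^ s) (𝓝[>] 0)
          (𝓝 (ediam (t i) ^ s)) := by
        have h4 : Tendsto (fun r : ℝ≥0 => ediam (t i) + 2 * (r : ℝ≥0∞)) (𝓝[>] 0)
            (𝓝 (ediam (t i))) := by
          have h5 : Tendsto (fun r : ℝ≥0 => ediam (t i) + 2 * (r : ℝ≥0∞)) (𝓝 0)
              (𝓝 (ediam (t i) + 2 * ((0 : ℝ≥0) : ℝ≥0∞))) := by
            refine Tendsto.const_add _ (ENNReal.Tendsto.const_mul ?_ (Or.inr (by simp)))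
            exact (ENNReal.continuous_coe.tendsto 0)
          rw [ENNReal.coe_zero, mul_zero, add_zero] at h5
          exact h5.mono_left nhdsWithin_le_nhds
        exact (ENNReal.continuous_rpow_const.tendsto _).comp h4
      have hlt : ediam (t i) ^ s < ediam (t i) ^ s + η i :=
        ENNReal.lt_add_right (ENNReal.rpow_ne_top_of_nonneg hs.le hfin) (hη i).ne'
      obtain ⟨r, hr1, hr2⟩ := ((hc.eventually_lt_const hlt).and self_mem_nhdsWithin).exists
      refine ⟨r, hr2, ?_⟩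
      rw [iSup_pos hne]
      refine le_trans ?_ hr1.le
      exact ENNReal.rpow_le_rpow (ediam_thickening_le r) hs.le
  choose r hr hr2 using key
  refine ⟨fun i => thickening (r i) (t i), fun i => isOpen_thickening, ?_, ?_⟩
  · exact hA.trans (iUnion_mono fun i => self_subset_thickening (hr i) _)
  · calc ∑' i, ediam (thickening (r i) (t i)) ^ s
        ≤ ∑' i, ((⨆ _ : (t i).Nonempty, ediam (t i) ^ s) + η i) := ENNReal.tsum_le_tsum hr2
      _ = (∑' i, ⨆ _ : (t i).Nonempty, ediam (t i) ^ s) + ∑' i, η i := ENNReal.tsum_add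
      _ < ε / 2 + ε / 2 := ENNReal.add_lt_add hsum hηs
      _ = ε := ENNReal.add_halves ε

theorem zero_of_small {s : ℝ} (hs : 0 < s) {A : Set (EuclideanSpace ℝ (Fin n))} (h : ∀ ε : ℝ≥0∞, 0 < ε → Small s ε A) :
    μH[s] A = 0 := by
  rw [Measure.hausdorffMeasure_apply, ← nonpos_iff_eq_zero]
  refine iSup₂_le fun r hr => ?_
  by_contra hcon
  rw [not_le] at hcon
  obtain ⟨x, hx⟩ : ∃ x, x = (⨅ (t : ℕ → Set (EuclideanSpace ℝ (Fin n))) (_ : A ⊆ ⋃ n, t n) (_ : ∀ n, ediam (t n) ≤ r),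
      ∑' n, ⨆ _ : (t n).Nonempty, ediam (t n) ^ s) := ⟨_, rfl⟩
  rw [← hx] at hcon
  obtain ⟨t, -, hA, hsum⟩ := h (min x (r ^ s)) (lt_min hcon (ENNReal.rpow_pos_of_nonneg hr hs.le))
  have h1 : ∀ i, ediam (t i) ≤ r := fun i => by
    have h2 : ediam (t i) ^ s ≤ r ^ s :=
      (ENNReal.le_tsum i).trans (hsum.le.trans (min_le_right _ _))
    exact (ENNReal.rpow_le_rpow_iff hs).1 h2
  have h3 : x ≤ ∑' n, ⨆ _ : (t n).Nonempty, ediam (t n) ^ s := by
    rw [hx]
    exact (iInf₂_le t hA).trans (iInf_le _ h1)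
  have h4 : (∑' n, ⨆ _ : (t n).Nonempty, ediam (t n) ^ s) ≤ ∑' n, ediam (t n) ^ s :=
    ENNReal.tsum_le_tsum fun i => iSup_le fun _ => le_rfl
  exact absurd (h3.trans h4) (not_le.2 (hsum.trans_le (min_le_left _ _)))

theorem dimH_copies {K0 K' : Set (EuclideanSpace ℝ (Fin n))} (h : Copies K0 K') : dimH K' ≤ dimH K0 := by
  obtain ⟨ι, _, c, T, P, hP, hK⟩ := h
  refine (dimH_mono hK).trans ?_
  rw [dimH_union, dimH_iUnion, hP.dimH_zero]
  refine max_le (iSup_le fun i => ?_) zero_le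
  have h1 : LipschitzWith ‖(T i : (EuclideanSpace ℝ (Fin n)) →L[ℝ] (EuclideanSpace ℝ (Fin n)))‖₊ (fun x => c i + T i x) := by
    refine LipschitzWith.of_dist_le_mul fun x y => ?_
    rw [dist_add_left]
    exact (T i : (EuclideanSpace ℝ (Fin n)) →L[ℝ] (EuclideanSpace ℝ (Fin n))).lipschitz.dist_le_mul x y
  exact h1.dimH_image_le K0

theorem volume_copies {K0 K' : Set (EuclideanSpace ℝ (Fin n))} (h0 : K0.Nonempty) (h : Copies K0 K') :
    ∃ (κ : ℝ) (C : ℝ≥0∞), 0 < κ ∧ κ ≤ 1 ∧ C ≠ ∞ ∧ ∀ δ : ℝ, 0 < δ →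
      volume (thickening (κ * δ) K') ≤ C * volume (thickening δ K0) := by
  obtain ⟨ι, _, c, T, P, hP, hK⟩ := h
  obtain ⟨x0, hx0⟩ := h0
  obtain ⟨D, hD⟩ : ∃ D, D = ∑ i, ‖((T i).symm : (EuclideanSpace ℝ (Fin n)) →L[ℝ] (EuclideanSpace ℝ (Fin n)))‖ := ⟨_, rfl⟩
  have hD0 : 0 ≤ D := hD ▸ Finset.sum_nonneg fun i _ => norm_nonneg _
  have hDi : ∀ i, ‖((T i).symm : (EuclideanSpace ℝ (Fin n)) →L[ℝ] (EuclideanSpace ℝ (Fin n)))‖ ≤ D := fun i => by
    rw [hD]
    exact Finset.single_le_sum (f := fun i => ‖((T i).symm : (EuclideanSpace ℝ (Fin n)) →L[ℝ] (EuclideanSpace ℝ (Fin n)))‖)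
      (fun i _ => norm_nonneg _) (Finset.mem_univ i)
  refine ⟨1 / (1 + D), (∑ i, ENNReal.ofReal |LinearMap.det ((T i : (EuclideanSpace ℝ (Fin n)) →L[ℝ] (EuclideanSpace ℝ (Fin n))) : (EuclideanSpace ℝ (Fin n)) →ₗ[ℝ] (EuclideanSpace ℝ (Fin n)))|) +
    hP.toFinset.card, by positivity, ?_, ?_, fun δ hδ => ?_⟩
  · rw [div_le_one (by positivity)]; linarith
  · exact ENNReal.add_ne_top.2 ⟨ENNReal.sum_ne_top.2 fun i _ => ENNReal.ofReal_ne_top,
      ENNReal.natCast_ne_top _⟩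
  have hκ0 : 0 < 1 / (1 + D) * δ := by positivity
  have hκδ : 1 / (1 + D) * δ ≤ δ := by
    have : 1 / (1 + D) ≤ 1 := by rw [div_le_one (by positivity)]; linarith
    nlinarith
  have h1 : thickening (1 / (1 + D) * δ) K' ⊆
      (⋃ i, (fun x => c i + T i x) '' thickening δ K0) ∪
        ⋃ p ∈ hP.toFinset, ball p (1 / (1 + D) * δ) := by
    intro y hy
    obtain ⟨z, hz, hyz⟩ := mem_thickening_iff.1 hy
    rcases hK hz with hz | hz
    · obtain ⟨i, x, hx, rfl⟩ := mem_iUnion.1 hz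
      refine Or.inl (mem_iUnion.2 ⟨i, (T i).symm (y - c i), ?_, by simp⟩)
      refine mem_thickening_iff.2 ⟨x, hx, ?_⟩
      have e1 : (T i).symm (y - c i) - x = (T i).symm (y - (c i + T i x)) := by
        rw [← sub_sub, map_sub (T i).symm (y - c i), ContinuousLinearEquiv.symm_apply_apply]
      rw [dist_eq_norm, e1]
      calc ‖(T i).symm (y - (c i + T i x))‖
          ≤ ‖((T i).symm : (EuclideanSpace ℝ (Fin n)) →L[ℝ] (EuclideanSpace ℝ (Fin n)))‖ * ‖y - (c i + T i x)‖ :=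
            ((T i).symm : (EuclideanSpace ℝ (Fin n)) →L[ℝ] (EuclideanSpace ℝ (Fin n))).le_opNorm _
        _ ≤ D * ‖y - (c i + T i x)‖ := mul_le_mul_of_nonneg_right (hDi i) (norm_nonneg _)
        _ ≤ D * (1 / (1 + D) * δ) := by
            rw [← dist_eq_norm]
            exact mul_le_mul_of_nonneg_left hyz.le hD0
        _ < δ := by
            rw [show D * (1 / (1 + D) * δ) = D / (1 + D) * δ by ring]
            have : D / (1 + D) < 1 := by rw [div_lt_one (by positivity)]; linarith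
            nlinarith
    · exact Or.inr (mem_iUnion₂.2 ⟨z, hP.mem_toFinset.2 hz, hyz⟩)
  have h2 : ∀ i, volume ((fun x => c i + T i x) '' thickening δ K0) =
      ENNReal.ofReal |LinearMap.det ((T i : (EuclideanSpace ℝ (Fin n)) →L[ℝ] (EuclideanSpace ℝ (Fin n))) : (EuclideanSpace ℝ (Fin n)) →ₗ[ℝ] (EuclideanSpace ℝ (Fin n)))| *
        volume (thickening δ K0) := fun i => by
    rw [show (fun x => c i + T i x) = (fun x => c i + x) ∘ (T i) from rfl, image_comp,
      image_add_left, measure_preimage_add, Measure.addHaar_image_continuousLinearEquiv]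
    rfl
  have h3 : ∀ p : (EuclideanSpace ℝ (Fin n)), volume (ball p (1 / (1 + D) * δ)) ≤ volume (thickening δ K0) := fun p => by
    rw [Measure.addHaar_ball_center, ← Measure.addHaar_ball_center volume x0]
    refine measure_mono fun y hy => mem_thickening_iff.2 ⟨x0, hx0, ?_⟩
    exact (mem_ball.1 hy).trans_le hκδ
  calc volume (thickening (1 / (1 + D) * δ) K')
      ≤ volume (⋃ i, (fun x => c i + T i x) '' thickening δ K0) +
        volume (⋃ p ∈ hP.toFinset, ball p (1 / (1 + D) * δ)) :=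
        (measure_mono h1).trans (measure_union_le _ _)
    _ ≤ (∑ i, volume ((fun x => c i + T i x) '' thickening δ K0)) +
        ∑ p ∈ hP.toFinset, volume (ball p (1 / (1 + D) * δ)) := by
        refine add_le_add ?_ (measure_biUnion_finset_le _ _)
        exact measure_iUnion_fintype_le _ _
    _ ≤ (∑ i, ENNReal.ofReal |LinearMap.det ((T i : (EuclideanSpace ℝ (Fin n)) →L[ℝ] (EuclideanSpace ℝ (Fin n))) : (EuclideanSpace ℝ (Fin n)) →ₗ[ℝ] (EuclideanSpace ℝ (Fin n)))| *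
          volume (thickening δ K0)) + ∑ p ∈ hP.toFinset, volume (thickening δ K0) := by
        refine add_le_add (Finset.sum_le_sum fun i _ => (h2 i).le)
          (Finset.sum_le_sum fun p _ => h3 p)
    _ = _ := by
        rw [Finset.sum_const, nsmul_eq_mul, add_mul, Finset.sum_mul]

end

end Pool.Agent.U26.TK
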