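import Mathlib

/-!
# Kakeya sets, and the space of all Kakeya sets
-/

open Set Metric Filter Topology MeasureTheory TopologicalSpace

namespace Pool.Agent.U26.TK

noncomputable section

/-- `K` is a Kakeya set of `ℝ^n`: it is compact and contains a unit segment in every direction. -/
def IsKakeya {n : ℕ} (K : Set (EuclideanSpace ℝ (Fin n))) : Prop :=
  IsCompact K ∧ ∀ w : EuclideanSpace ℝ (Fin n), ‖w‖ = 1 →
    ∃ a : EuclideanSpace ℝ (Fin n), ∀ t : ℝ, 0 ≤ t → t ≤ 1 → a + t • w ∈ K

/-- The space of all nonempty Kakeya sets of `ℝ^n`, with the Hausdorff metric (the metric of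
`NonemptyCompacts`). -/
abbrev KSpace (n : ℕ) : Type :=
  {K : NonemptyCompacts (EuclideanSpace ℝ (Fin n)) // IsKakeya (K : Set (EuclideanSpace ℝ (Fin n)))}

/-- `log |N_δ K| / log δ`, where `N_δ K` is the set of the points at distance `< δ` from `K` -/
def ratio {n : ℕ} (K : Set (EuclideanSpace ℝ (Fin n))) (δ : ℝ) : EReal :=
  ((Real.log (volume (thickening δ K)).toReal / Real.log δ : ℝ) : EReal)

/-- the lower Minkowski dimension `n - limsup_{δ → 0+} log |N_δ K| / log δ` -/
def lowerMinkowski {n : ℕ} (K : Set (EuclideanSpace ℝ (Fin n))) : EReal :=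
  (n : EReal) - limsup (ratio K) (𝓝[>] 0)

/-- the upper Minkowski dimension `n - liminf_{δ → 0+} log |N_δ K| / log δ` -/
def upperMinkowski {n : ℕ} (K : Set (EuclideanSpace ℝ (Fin n))) : EReal :=
  (n : EReal) - liminf (ratio K) (𝓝[>] 0)

end

end Pool.Agent.U26.TK
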