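import Pool.Agent.U26.TK.Squeeze

/-!
# Kakeya sets built from squeezed copies of one Kakeya set are dense
-/

open Set Metric
open scoped RealInnerProductSpace

namespace Pool.Agent.U26.TK

noncomputable section

variable {n : ℕ}

/-- a squeezed copy of `K0`, its translates along `e`, truncated near the segment from `a` -/
def piece (K0 : Set (EuclideanSpace ℝ (Fin n))) (e a : (EuclideanSpace ℝ (Fin n))) (l τ : ℝ) (M : ℕ) : Set (EuclideanSpace ℝ (Fin n)) :=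
  ⋃ j ∈ Finset.Icc (-(M : ℤ)) M, ((fun y => (a + ((j : ℝ) * τ) • e) + (2 : ℝ) • sq e l y) '' K0) ∩
    {x | 0 ≤ ⟪e, x - a⟫ ∧ ⟪e, x - a⟫ ≤ 1 + τ}

theorem piece_compact {K0 : Set (EuclideanSpace ℝ (Fin n))} (h0 : IsCompact K0) (e a : (EuclideanSpace ℝ (Fin n))) (l τ : ℝ) (M : ℕ) :
    IsCompact (piece K0 e a l τ M) := by
  refine Finset.isCompact_biUnion _ fun j _ => ?_
  refine IsCompact.inter_right ?_ ?_
  · exact h0.image (by fun_prop)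
  · have hc : Continuous fun x : (EuclideanSpace ℝ (Fin n)) => ⟪e, x - a⟫ := by fun_prop
    exact (isClosed_le continuous_const hc).inter (isClosed_le hc continuous_const)

theorem piece_close {K0 : Set (EuclideanSpace ℝ (Fin n))} {e a : (EuclideanSpace ℝ (Fin n))} (he : ‖e‖ = 1) {l τ R : ℝ} (hl : 0 ≤ l) (hτ : 0 ≤ τ)
    (hR : ∀ y ∈ K0, ‖y‖ ≤ R) {M : ℕ} {x : (EuclideanSpace ℝ (Fin n))} (hx : x ∈ piece K0 e a l τ M) :
    ∃ t : ℝ, 0 ≤ t ∧ t ≤ 1 ∧ dist x (a + t • e) ≤ τ + 2 * l * R := by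
  simp only [piece, mem_iUnion, mem_inter_iff, mem_image, mem_ofPred_eq] at hx
  obtain ⟨j, -, ⟨y, hy, rfl⟩, h1, h2⟩ := hx
  have e1 : ⟪e, (a + ((j : ℝ) * τ) • e) + (2 : ℝ) • sq e l y - a⟫ = (j : ℝ) * τ + 2 * ⟪e, y⟫ := by
    rw [show (a + ((j : ℝ) * τ) • e) + (2 : ℝ) • sq e l y - a =
      ((j : ℝ) * τ) • e + (2 : ℝ) • sq e l y by abel, inner_add_right, inner_smul_right,
      inner_smul_right, inner_sq he, real_inner_self_eq_norm_sq, he]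
    ring
  rw [e1] at h1 h2
  obtain ⟨u, hu⟩ : ∃ u, u = (j : ℝ) * τ + 2 * ⟪e, y⟫ := ⟨_, rfl⟩
  rw [← hu] at h1 h2
  refine ⟨min u 1, le_min h1 zero_le_one, min_le_right _ _, ?_⟩
  have e2 : (a + ((j : ℝ) * τ) • e) + (2 : ℝ) • sq e l y - (a + min u 1 • e) =
      (u - min u 1) • e + (2 * l) • (y - ⟪e, y⟫ • e) := by
    rw [sq_apply, hu]; module
  rw [dist_eq_norm, e2]
  refine (norm_add_le _ _).trans (add_le_add ?_ ?_)
  · rw [norm_smul, he, mul_one, Real.norm_eq_abs, abs_of_nonneg (sub_nonneg.2 (min_le_left _ _))]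
    rcases min_choice u 1 with h | h <;> rw [h]
    · linarith
    · linarith
  · rw [norm_smul, Real.norm_eq_abs, abs_of_nonneg (by positivity)]
    exact mul_le_mul_of_nonneg_left ((norm_perp_le he y).trans (hR y hy)) (by positivity)

theorem piece_dir {K0 : Set (EuclideanSpace ℝ (Fin n))} (h0 : IsKakeya K0) {e : (EuclideanSpace ℝ (Fin n))} (a : (EuclideanSpace ℝ (Fin n))) (he : ‖e‖ = 1) {l τ R : ℝ}
    (hl : 0 < l) (hl1 : l ≤ 1) (hτ : 0 < τ) (hR : ∀ y ∈ K0, ‖y‖ ≤ R) {M : ℕ}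
    (hM : 2 * R / τ + 1 ≤ M) {w : (EuclideanSpace ℝ (Fin n))} (hw : ‖w‖ = 1) (hwe : ‖w - e‖ ≤ l) :
    ∃ p : (EuclideanSpace ℝ (Fin n)), ∀ u : ℝ, 0 ≤ u → u ≤ 1 → p + u • w ∈ piece K0 e a l τ M := by
  obtain ⟨N, hN⟩ : ∃ N, N = ‖sq e l⁻¹ w‖ := ⟨_, rfl⟩
  have hin : ⟪e, w⟫ = 1 - ‖w - e‖ ^ 2 / 2 := by
    rw [norm_sub_sq_real, hw, he, real_inner_comm]; ring
  have hin0 : 0 ≤ ⟪e, w⟫ := by
    rw [hin]; nlinarith [norm_nonneg (w - e)]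
  have hin1 : ⟪e, w⟫ ≤ 1 := by
    rw [hin]; nlinarith [norm_nonneg (w - e)]
  have hN2 : N ^ 2 = ⟪e, w⟫ ^ 2 + l⁻¹ ^ 2 * ‖w - ⟪e, w⟫ • e‖ ^ 2 := by rw [hN, norm_sq_sq he]
  have hperp : l⁻¹ ^ 2 * ‖w - ⟪e, w⟫ • e‖ ^ 2 ≤ 1 := by
    have h1 : ‖w - ⟪e, w⟫ • e‖ ≤ l := (norm_perp_le_sub he w).trans hwe
    have h2 : ‖w - ⟪e, w⟫ • e‖ ^ 2 ≤ l ^ 2 := by gcongr
    calc l⁻¹ ^ 2 * ‖w - ⟪e, w⟫ • e‖ ^ 2 ≤ l⁻¹ ^ 2 * l ^ 2 := by gcongr
      _ = 1 := by rw [← mul_pow, inv_mul_cancel₀ hl.ne', one_pow]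
  have hN0 : 0 ≤ N := hN ▸ norm_nonneg _
  have hNle : N ≤ 2 := by nlinarith
  have hNpos : 0 < N := by
    rcases hN0.lt_or_eq with h | h
    · exact h
    exfalso
    have h3 : sq e l⁻¹ w = 0 := norm_eq_zero.1 (by rw [← hN, ← h])
    have h4 : sq e l (sq e l⁻¹ w) = w := by rw [sq_sq he, mul_inv_cancel₀ hl.ne', sq_one]
    rw [h3, map_zero] at h4
    rw [← h4, norm_zero] at hw
    exact zero_ne_one hw
  obtain ⟨b, hb⟩ := h0.2 (N⁻¹ • sq e l⁻¹ w) (by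
    rw [norm_smul, ← hN, Real.norm_eq_abs, abs_of_pos (inv_pos.2 hNpos), inv_mul_cancel₀ hNpos.ne'])
  have hb0 : b ∈ K0 := by simpa using hb 0 le_rfl zero_le_one
  have hbR : |⟪e, b⟫| ≤ R := by
    have := abs_real_inner_le_norm e b
    rw [he, one_mul] at this
    exact this.trans (hR b hb0)
  obtain ⟨j, hj⟩ : ∃ j : ℤ, j = ⌊2 * ⟪e, b⟫ / τ⌋ := ⟨_, rfl⟩
  have hj1 : (j : ℝ) ≤ 2 * ⟪e, b⟫ / τ := hj ▸ Int.floor_le _
  have hj2 : 2 * ⟪e, b⟫ / τ < j + 1 := hj ▸ Int.lt_floor_add_one _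
  have hj1' : (j : ℝ) * τ ≤ 2 * ⟪e, b⟫ := by rwa [le_div_iff₀ hτ] at hj1
  have hj2' : 2 * ⟪e, b⟫ < (j + 1) * τ := by rwa [div_lt_iff₀ hτ] at hj2
  have hR2 : 2 * R ≤ (M - 1) * τ := by
    have : 2 * R / τ ≤ M - 1 := by linarith
    rwa [div_le_iff₀ hτ] at this
  have hab := abs_le.1 hbR
  have hjM : -j ∈ Finset.Icc (-(M : ℤ)) M := by
    rw [Finset.mem_Icc]
    constructor
    · have : (j : ℝ) ≤ M := by
        have h5 : (j : ℝ) * τ ≤ (M - 1) * τ := by linarith [hab.2]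
        have h6 := le_of_mul_le_mul_right h5 hτ
        linarith
      have : j ≤ (M : ℤ) := by exact_mod_cast this
      linarith
    · have : -(M : ℝ) ≤ j := by
        have h5 : -((M : ℝ) - 1) * τ < (j + 1) * τ := by linarith [hab.1]
        have h6 := lt_of_mul_lt_mul_right h5 hτ.le
        linarith
      have : -(M : ℤ) ≤ j := by exact_mod_cast this
      linarith
  refine ⟨(a + (((-j : ℤ) : ℝ) * τ) • e) + (2 : ℝ) • sq e l b, fun u hu0 hu1 => ?_⟩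
  simp only [piece, mem_iUnion]
  refine ⟨-j, hjM, ?_, ?_⟩
  · refine ⟨b + (u * N / 2) • (N⁻¹ • sq e l⁻¹ w), hb _ (by positivity) ?_, ?_⟩
    · have : u * N ≤ 1 * 2 := mul_le_mul hu1 hNle hN0 zero_le_one
      linarith
    · simp only [map_add, map_smul, sq_sq he, mul_inv_cancel₀ hl.ne', sq_one, smul_add, smul_smul]
      rw [show 2 * (u * N / 2 * N⁻¹) = u by field_simp]
      abel
  · have e1 : ⟪e, (a + (((-j : ℤ) : ℝ) * τ) • e) + (2 : ℝ) • sq e l b + u • w - a⟫ =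
        2 * ⟪e, b⟫ - (j : ℝ) * τ + u * ⟪e, w⟫ := by
      rw [show (a + (((-j : ℤ) : ℝ) * τ) • e) + (2 : ℝ) • sq e l b + u • w - a =
        (((-j : ℤ) : ℝ) * τ) • e + (2 : ℝ) • sq e l b + u • w by abel, inner_add_right,
        inner_add_right, inner_smul_right,
        inner_smul_right, inner_smul_right, inner_sq he, real_inner_self_eq_norm_sq, he]
      push_cast
      ring
    simp only [mem_ofPred_eq, e1]
    have h7 : 0 ≤ u * ⟪e, w⟫ := mul_nonneg hu0 hin0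
    have h8 : u * ⟪e, w⟫ ≤ 1 := by
      calc u * ⟪e, w⟫ ≤ 1 * 1 := mul_le_mul hu1 hin1 hin0 zero_le_one
        _ = 1 := one_mul 1
    constructor
    · linarith
    · nlinarith

/-- **Kakeya sets made of finitely many squeezed copies of `K0` and finitely many points are
dense.** -/
theorem exists_near {K0 K : Set (EuclideanSpace ℝ (Fin n))} (h0 : IsKakeya K0) (h : IsKakeya K) (hne : K.Nonempty) {ε : ℝ}
    (hε : 0 < ε) :
    ∃ K' : Set (EuclideanSpace ℝ (Fin n)), IsKakeya K' ∧ K'.Nonempty ∧ (∀ x ∈ K', ∃ y ∈ K, dist x y ≤ ε) ∧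
      (∀ y ∈ K, ∃ x ∈ K', dist y x ≤ ε) ∧
      ∃ (ι : Type) (_ : Fintype ι) (c : ι → (EuclideanSpace ℝ (Fin n))) (T : ι → ((EuclideanSpace ℝ (Fin n)) ≃L[ℝ] (EuclideanSpace ℝ (Fin n)))) (P : Set (EuclideanSpace ℝ (Fin n))), P.Finite ∧
        K' ⊆ (⋃ i, (fun x => c i + T i x) '' K0) ∪ P := by
  obtain ⟨R0, hR0⟩ := h0.1.isBounded.exists_norm_le
  obtain ⟨R, hRdef⟩ : ∃ R, R = max R0 1 := ⟨_, rfl⟩
  have hR : ∀ y ∈ K0, ‖y‖ ≤ R := fun y hy => (hR0 y hy).trans (hRdef ▸ le_max_left _ _)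
  have hR1 : 1 ≤ R := hRdef ▸ le_max_right _ _
  obtain ⟨τ, hτdef⟩ : ∃ τ, τ = ε / 2 := ⟨_, rfl⟩
  have hτ : 0 < τ := by rw [hτdef]; positivity
  obtain ⟨l, hldef⟩ : ∃ l, l = min 1 (ε / (4 * R)) := ⟨_, rfl⟩
  have hl : 0 < l := by rw [hldef]; positivity
  have hl1 : l ≤ 1 := by rw [hldef]; exact min_le_left _ _
  have hlR : 2 * l * R ≤ ε / 2 := by
    have h1 : l ≤ ε / (4 * R) := by rw [hldef]; exact min_le_right _ _
    rw [le_div_iff₀ (by positivity)] at h1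
    linarith
  obtain ⟨M, hM⟩ := exists_nat_ge (2 * R / τ + 1)
  obtain ⟨S, hS1, hSf, hS2⟩ := (isCompact_sphere (0 : (EuclideanSpace ℝ (Fin n))) 1).finite_cover_balls hl
  obtain ⟨P, hP1, hPf, hP2⟩ := h.1.finite_cover_balls hε
  have ha : ∀ e : (EuclideanSpace ℝ (Fin n)), ∃ a : (EuclideanSpace ℝ (Fin n)), ‖e‖ = 1 → ∀ t : ℝ, 0 ≤ t → t ≤ 1 → a + t • e ∈ K := fun e => by
    by_cases he : ‖e‖ = 1
    · obtain ⟨a, ha⟩ := h.2 e he
      exact ⟨a, fun _ => ha⟩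
    · exact ⟨0, fun h' => absurd h' he⟩
  choose a ha using ha
  have hS3 : ∀ e ∈ S, ‖e‖ = 1 := fun e he => by simpa using hS1 he
  refine ⟨(⋃ e ∈ S, piece K0 e (a e) l τ M) ∪ P, ⟨?_, ?_⟩, ?_, ?_, ?_, ?_⟩
  · exact (hSf.isCompact_biUnion fun e _ => piece_compact h0.1 e (a e) l τ M).union hPf.isCompact
  · intro w hw
    have : w ∈ sphere (0 : (EuclideanSpace ℝ (Fin n))) 1 := by simpa using hw
    obtain ⟨e, he, hwe⟩ := mem_iUnion₂.1 (hS2 this)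
    rw [mem_ball, dist_eq_norm] at hwe
    obtain ⟨p, hp⟩ := piece_dir h0 (a e) (hS3 e he) hl hl1 hτ hR hM hw hwe.le
    exact ⟨p, fun t h1 h2 => Or.inl (mem_iUnion₂.2 ⟨e, he, hp t h1 h2⟩)⟩
  · obtain ⟨x, hx⟩ := hne
    obtain ⟨y, hy, -⟩ := mem_iUnion₂.1 (hP2 hx)
    exact ⟨y, Or.inr hy⟩
  · rintro x (hx | hx)
    · obtain ⟨e, he, hxe⟩ := mem_iUnion₂.1 hx
      obtain ⟨t, ht0, ht1, hd⟩ := piece_close (hS3 e he) hl.le hτ.le hR hxe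
      exact ⟨_, ha e (hS3 e he) t ht0 ht1, by linarith⟩
    · exact ⟨x, hP1 hx, by simpa using hε.le⟩
  · intro y hy
    obtain ⟨x, hx, hyx⟩ := mem_iUnion₂.1 (hP2 hy)
    exact ⟨x, Or.inr hx, (mem_ball.1 hyx).le⟩
  · have : Fintype S := hSf.fintype
    refine ⟨S × (Finset.Icc (-(M : ℤ)) M), inferInstance,
      fun i => a i.1 + ((((i.2 : ℤ)) : ℝ) * τ) • (i.1 : (EuclideanSpace ℝ (Fin n))),
      fun i => sqe (i.1 : (EuclideanSpace ℝ (Fin n))) (hS3 _ i.1.2) l 2 hl.ne' two_ne_zero, P, hPf, ?_⟩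
    refine union_subset_union_left _ ?_
    intro x hx
    obtain ⟨e, he, hxe⟩ := mem_iUnion₂.1 hx
    simp only [piece, mem_iUnion] at hxe
    obtain ⟨j, hj, ⟨y, hy, rfl⟩, -⟩ := hxe
    exact mem_iUnion.2 ⟨(⟨e, he⟩, ⟨j, hj⟩), y, hy, rfl⟩

end

end Pool.Agent.U26.TK
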