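import Pool.Agent.U26.TK.Dense

/-!
# The space of Kakeya sets: completeness, density, open conditions
-/

open Set Metric Filter Topology MeasureTheory TopologicalSpace
open scoped ENNReal NNReal

namespace Pool.Agent.U26.TK

noncomputable section

variable {n : ℕ}

theorem exists_dist_lt {K L : NonemptyCompacts (EuclideanSpace ℝ (Fin n))} {r : ℝ} (h : dist K L < r) {x : (EuclideanSpace ℝ (Fin n))}
    (hx : x ∈ (K : Set (EuclideanSpace ℝ (Fin n)))) : ∃ y ∈ (L : Set (EuclideanSpace ℝ (Fin n))), dist x y < r :=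
  exists_dist_lt_of_hausdorffDist_lt hx (by rwa [NonemptyCompacts.dist_eq] at h)
    (hausdorffEDist_ne_top_of_nonempty_of_bounded K.nonempty L.nonempty K.isCompact.isBounded
      L.isCompact.isBounded)

theorem subset_thickening {K L : NonemptyCompacts (EuclideanSpace ℝ (Fin n))} {r : ℝ} (h : dist K L < r) :
    (K : Set (EuclideanSpace ℝ (Fin n))) ⊆ thickening r (L : Set (EuclideanSpace ℝ (Fin n))) := fun _ hx =>
  mem_thickening_iff.2 (exists_dist_lt h hx)

theorem isClosed_kakeya (n : ℕ) :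
    IsClosed {K : NonemptyCompacts (EuclideanSpace ℝ (Fin n)) |
      IsKakeya (K : Set (EuclideanSpace ℝ (Fin n)))} := by
  refine isClosed_of_closure_subset fun K hK => ?_
  obtain ⟨L, hL, hlim⟩ := mem_closure_iff_seq_limit.1 hK
  refine ⟨K.isCompact, fun w hw => ?_⟩
  choose a ha using fun j => (hL j).2 w hw
  have hd : Tendsto (fun j => dist (L j) K) atTop (𝓝 0) := tendsto_iff_dist_tendsto_zero.1 hlim
  have hev : ∀ᶠ j in atTop, a j ∈ cthickening 1 (K : Set (EuclideanSpace ℝ (Fin n))) := by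
    filter_upwards [hd.eventually_lt_const zero_lt_one] with j hj
    have h1 := ha j 0 le_rfl zero_le_one
    rw [zero_smul, add_zero] at h1
    exact thickening_subset_cthickening _ _ (subset_thickening hj h1)
  obtain ⟨b, -, φ, hφ, hb⟩ := (K.isCompact.cthickening (r := 1)).tendsto_subseq' hev.frequently
  refine ⟨b, fun t h0 h1 => ?_⟩
  rw [← K.isCompact.isClosed.closure_eq, Metric.mem_closure_iff]
  intro r hr
  have h2 : ∀ᶠ j in atTop, dist (L (φ j)) K < r / 2 :=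
    (hd.comp hφ.tendsto_atTop).eventually_lt_const (by positivity)
  have h3 : ∀ᶠ j in atTop, dist (a (φ j)) b < r / 2 :=
    (tendsto_iff_dist_tendsto_zero.1 hb).eventually_lt_const (by positivity)
  obtain ⟨j, hj2, hj3⟩ := (h2.and h3).exists
  obtain ⟨y, hy, hxy⟩ := exists_dist_lt hj2 (ha (φ j) t h0 h1)
  refine ⟨y, hy, ?_⟩
  calc dist (b + t • w) y ≤ dist (b + t • w) (a (φ j) + t • w) + dist (a (φ j) + t • w) y :=
        dist_triangle _ _ _
    _ < r / 2 + r / 2 := by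
        refine add_lt_add ?_ hxy
        rw [dist_add_right, dist_comm]; exact hj3
    _ = r := by ring

instance (n : ℕ) : CompleteSpace (KSpace n) := (isClosed_kakeya n).completeSpace_coe

/-- closed balls of radius one are Kakeya sets -/
theorem isKakeya_closedBall (n : ℕ) : IsKakeya (closedBall (0 : EuclideanSpace ℝ (Fin n)) 1) :=
  ⟨isCompact_closedBall _ _, fun w hw => ⟨0, fun t h0 h1 => by
    rw [mem_closedBall_zero_iff, zero_add, norm_smul, hw, mul_one, Real.norm_eq_abs,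
      abs_of_nonneg h0]
    exact h1⟩⟩

instance (n : ℕ) : Nonempty (KSpace n) :=
  ⟨⟨⟨⟨closedBall 0 1, isCompact_closedBall _ _⟩, ⟨0, by simp⟩⟩, isKakeya_closedBall n⟩⟩

/-- `K'` is covered by finitely many affine copies of `K0` and finitely many points -/
def Copies (K0 K' : Set (EuclideanSpace ℝ (Fin n))) : Prop :=
  ∃ (ι : Type) (_ : Fintype ι) (c : ι → (EuclideanSpace ℝ (Fin n))) (T : ι → ((EuclideanSpace ℝ (Fin n)) ≃L[ℝ] (EuclideanSpace ℝ (Fin n)))) (P : Set (EuclideanSpace ℝ (Fin n))), P.Finite ∧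
    K' ⊆ (⋃ i, (fun x => c i + T i x) '' K0) ∪ P

theorem dense_copies {K0 : Set (EuclideanSpace ℝ (Fin n))} (h0 : IsKakeya K0) :
    Dense {K' : KSpace n | Copies K0 (K' : Set (EuclideanSpace ℝ (Fin n)))} := by
  rw [Metric.dense_iff]
  intro K r hr
  obtain ⟨K', h1, h2, h3, h4, h5⟩ := exists_near h0 K.2 K.1.nonempty (half_pos hr)
  refine ⟨⟨⟨⟨K', h1.1⟩, h2⟩, h1⟩, ?_, h5⟩
  rw [mem_ball, Subtype.dist_eq, NonemptyCompacts.dist_eq]
  exact (hausdorffDist_le_of_mem_dist (half_pos hr).le h3 h4).trans_lt (half_lt_self hr)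

/-- a union of a Kakeya set with a small ball -/
theorem dense_ball : Dense {K' : KSpace n | ∃ x : (EuclideanSpace ℝ (Fin n)), ∃ r > 0, ball x r ⊆ (K' : Set (EuclideanSpace ℝ (Fin n)))} := by
  rw [Metric.dense_iff]
  intro K r hr
  obtain ⟨x, hx⟩ := K.1.nonempty
  refine ⟨⟨⟨⟨(K : Set (EuclideanSpace ℝ (Fin n))) ∪ closedBall x (r / 2), K.2.1.union (isCompact_closedBall _ _)⟩,
    ⟨x, Or.inl hx⟩⟩, K.2.1.union (isCompact_closedBall _ _), fun w hw => ?_⟩, ?_, ?_⟩
  · obtain ⟨a, ha⟩ := K.2.2 w hw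
    exact ⟨a, fun t h0 h1 => Or.inl (ha t h0 h1)⟩
  · rw [mem_ball, Subtype.dist_eq, NonemptyCompacts.dist_eq]
    refine (hausdorffDist_le_of_mem_dist (half_pos hr).le ?_ ?_).trans_lt (half_lt_self hr)
    · rintro y (hy | hy)
      · exact ⟨y, hy, by simpa using (half_pos hr).le⟩
      · exact ⟨x, hx, hy⟩
    · intro y hy
      exact ⟨y, Or.inl hy, by simpa using (half_pos hr).le⟩
  · exact ⟨x, r / 2, half_pos hr, fun y hy => Or.inr (ball_subset_closedBall hy)⟩

/-- a cover by open sets with a small sum of the `s`-th powers of the diameters -/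
def Small (s : ℝ) (ε : ℝ≥0∞) (A : Set (EuclideanSpace ℝ (Fin n))) : Prop :=
  ∃ t : ℕ → Set (EuclideanSpace ℝ (Fin n)), (∀ i, IsOpen (t i)) ∧ A ⊆ ⋃ i, t i ∧ ∑' i, Metric.ediam (t i) ^ s < ε

theorem isOpen_small (s : ℝ) (ε : ℝ≥0∞) : IsOpen {K : KSpace n | Small s ε (K : Set (EuclideanSpace ℝ (Fin n)))} := by
  rw [Metric.isOpen_iff]
  rintro K ⟨t, h1, h2, h3⟩
  obtain ⟨δ, hδ, hsub⟩ := K.2.1.exists_thickening_subset_open (isOpen_iUnion h1) h2
  refine ⟨δ, hδ, fun L hL => ⟨t, h1, ?_, h3⟩⟩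
  rw [mem_ball, Subtype.dist_eq] at hL
  exact (subset_thickening hL).trans hsub

theorem isOpen_lower (c r : ℝ) : IsOpen {K : KSpace n | ∃ δ : ℝ, 0 < δ ∧ δ < r ∧
    volume (thickening δ (K : Set (EuclideanSpace ℝ (Fin n)))) < ENNReal.ofReal (δ ^ c)} := by
  rw [Metric.isOpen_iff]
  rintro K ⟨δ, hδ, hδr, h⟩
  have hcont : Tendsto (fun x : ℝ => ENNReal.ofReal (x ^ c)) (𝓝[<] δ) (𝓝 (ENNReal.ofReal (δ ^ c))) :=
    (ENNReal.continuous_ofReal.tendsto _).comp
      (((Real.continuousAt_rpow_const δ c (Or.inl hδ.ne')).tendsto).mono_left nhdsWithin_le_nhds)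
  have h1 : ∀ᶠ x in 𝓝[<] δ, volume (thickening δ (K : Set (EuclideanSpace ℝ (Fin n)))) < ENNReal.ofReal (x ^ c) :=
    hcont.eventually_const_lt h
  have h2 : ∀ᶠ x in 𝓝[<] δ, 0 < x := (eventually_gt_nhds hδ).filter_mono nhdsWithin_le_nhds
  obtain ⟨x, hx1, hx2, hx3⟩ := (h1.and (h2.and self_mem_nhdsWithin)).exists
  refine ⟨δ - x, sub_pos.2 hx3, fun L hL => ⟨x, hx2, hx3.trans hδr, lt_of_le_of_lt ?_ hx1⟩⟩
  rw [mem_ball, Subtype.dist_eq] at hL
  refine measure_mono ?_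
  calc thickening x (L : Set (EuclideanSpace ℝ (Fin n))) ⊆ thickening x (thickening (δ - x) (K : Set (EuclideanSpace ℝ (Fin n)))) :=
        thickening_subset_of_subset _ (subset_thickening hL)
    _ ⊆ thickening (x + (δ - x)) (K : Set (EuclideanSpace ℝ (Fin n))) := thickening_thickening_subset _ _ _
    _ = thickening δ (K : Set (EuclideanSpace ℝ (Fin n))) := by rw [add_sub_cancel]

theorem isOpen_upper (c r : ℝ) : IsOpen {K : KSpace n | ∃ δ : ℝ, 0 < δ ∧ δ < r ∧
    ENNReal.ofReal (δ ^ c) < volume (thickening δ (K : Set (EuclideanSpace ℝ (Fin n))))} := by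
  rw [Metric.isOpen_iff]
  rintro K ⟨δ, hδ, hδr, h⟩
  have hcont : Tendsto (fun x : ℝ => ENNReal.ofReal (x ^ c)) (𝓝[>] δ) (𝓝 (ENNReal.ofReal (δ ^ c))) :=
    (ENNReal.continuous_ofReal.tendsto _).comp
      (((Real.continuousAt_rpow_const δ c (Or.inl hδ.ne')).tendsto).mono_left nhdsWithin_le_nhds)
  have h1 : ∀ᶠ x in 𝓝[>] δ, ENNReal.ofReal (x ^ c) < volume (thickening δ (K : Set (EuclideanSpace ℝ (Fin n)))) :=
    hcont.eventually_lt_const h
  have h2 : ∀ᶠ x in 𝓝[>] δ, x < r := (eventually_lt_nhds hδr).filter_mono nhdsWithin_le_nhds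
  obtain ⟨x, hx1, hx2, hx3⟩ := (h1.and (h2.and self_mem_nhdsWithin)).exists
  refine ⟨x - δ, sub_pos.2 hx3, fun L hL => ⟨x, hδ.trans hx3, hx2, lt_of_lt_of_le hx1 ?_⟩⟩
  rw [mem_ball, Subtype.dist_eq, dist_comm] at hL
  refine measure_mono ?_
  calc thickening δ (K : Set (EuclideanSpace ℝ (Fin n))) ⊆ thickening δ (thickening (x - δ) (L : Set (EuclideanSpace ℝ (Fin n)))) :=
        thickening_subset_of_subset _ (subset_thickening hL)
    _ ⊆ thickening (δ + (x - δ)) (L : Set (EuclideanSpace ℝ (Fin n))) := thickening_thickening_subset _ _ _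
    _ = thickening x (L : Set (EuclideanSpace ℝ (Fin n))) := by rw [add_sub_cancel]

end

end Pool.Agent.U26.TK
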