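import Pool.Agent.U26.TK.Def

/-!
# Squeezing maps

`sq e l x` is the linear map which fixes the unit vector `e` and multiplies the orthogonal complement
of `e` by `l`. Kakeya sets are defined here; a squeezed, translated and truncated Kakeya set contains
unit segments in all directions close to `e` and lies close to one unit segment of direction `e`.
-/

open Set Metric
open scoped RealInnerProductSpace

namespace Pool.Agent.U26.TK

noncomputable section

variable {E : Type*} [NormedAddCommGroup E] [InnerProductSpace ℝ E]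

/-- the squeezing map -/
def sq (e : E) (l : ℝ) : E →L[ℝ] E :=
  (1 - l) • (innerSL ℝ e).smulRight e + l • ContinuousLinearMap.id ℝ E

theorem sq_apply (e : E) (l : ℝ) (x : E) : sq e l x = ⟪e, x⟫ • e + l • (x - ⟪e, x⟫ • e) := by
  simp only [sq, add_apply, smul_apply,
    ContinuousLinearMap.smulRight_apply, innerSL_apply_apply, ContinuousLinearMap.id_apply]
  module

theorem inner_sq {e : E} (he : ‖e‖ = 1) (l : ℝ) (x : E) : ⟪e, sq e l x⟫ = ⟪e, x⟫ := by
  rw [sq_apply, inner_add_right, inner_smul_right, inner_smul_right, inner_sub_right,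
    inner_smul_right, real_inner_self_eq_norm_sq, he]
  ring

theorem sq_sq {e : E} (he : ‖e‖ = 1) (l m : ℝ) (x : E) : sq e l (sq e m x) = sq e (l * m) x := by
  rw [sq_apply e l, inner_sq he, sq_apply e m, sq_apply e (l * m)]
  module

theorem sq_one (e x : E) : sq e 1 x = x := by
  rw [sq_apply]; module

/-- the squeezing map times `r`, as an equivalence -/
def sqe (e : E) (he : ‖e‖ = 1) (l r : ℝ) (hl : l ≠ 0) (hr : r ≠ 0) : E ≃L[ℝ] E :=
  ContinuousLinearEquiv.equivOfInverse (r • sq e l) (r⁻¹ • sq e l⁻¹)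
    (fun x => by
      simp only [smul_apply, map_smul, sq_sq he, inv_mul_cancel₀ hl, sq_one,
        smul_smul, mul_inv_cancel₀ hr, one_smul])
    (fun x => by
      simp only [smul_apply, map_smul, sq_sq he, mul_inv_cancel₀ hl, sq_one,
        smul_smul, inv_mul_cancel₀ hr, one_smul])

theorem sqe_apply (e : E) (he : ‖e‖ = 1) (l r : ℝ) (hl : l ≠ 0) (hr : r ≠ 0) (x : E) :
    sqe e he l r hl hr x = r • sq e l x := rfl

theorem norm_sq_perp {e : E} (he : ‖e‖ = 1) (x : E) :
    ‖x - ⟪e, x⟫ • e‖ ^ 2 = ‖x‖ ^ 2 - ⟪e, x⟫ ^ 2 := by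
  rw [norm_sub_sq_real, inner_smul_right, norm_smul, he, real_inner_comm, Real.norm_eq_abs,
    mul_one, sq_abs]
  ring

theorem norm_perp_le {e : E} (he : ‖e‖ = 1) (x : E) : ‖x - ⟪e, x⟫ • e‖ ≤ ‖x‖ := by
  refine le_of_sq_le_sq ?_ (norm_nonneg _)
  rw [norm_sq_perp he]
  nlinarith [sq_nonneg ⟪e, x⟫]

theorem norm_perp_le_sub {e : E} (he : ‖e‖ = 1) (x : E) : ‖x - ⟪e, x⟫ • e‖ ≤ ‖x - e‖ := by
  refine le_of_sq_le_sq ?_ (norm_nonneg _)
  rw [norm_sq_perp he, norm_sub_sq_real, he, real_inner_comm]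
  nlinarith [sq_nonneg (⟪x, e⟫ - 1)]

theorem norm_sq_sq {e : E} (he : ‖e‖ = 1) (l : ℝ) (x : E) :
    ‖sq e l x‖ ^ 2 = ⟪e, x⟫ ^ 2 + l ^ 2 * ‖x - ⟪e, x⟫ • e‖ ^ 2 := by
  have h0 : ⟪⟪e, x⟫ • e, l • (x - ⟪e, x⟫ • e)⟫ = 0 := by
    rw [inner_smul_left, inner_smul_right, inner_sub_right, inner_smul_right,
      real_inner_self_eq_norm_sq, he]
    simp
  rw [sq_apply, norm_add_sq_real, h0, norm_smul, norm_smul, he, Real.norm_eq_abs, Real.norm_eq_abs,
    mul_one, sq_abs, mul_pow, sq_abs]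
  ring

end

end Pool.Agent.U26.TK
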