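import Pool.Agent.U26.TK.Content

/-!
# Typical Kakeya sets
-/

open Set Metric Filter Topology MeasureTheory TopologicalSpace
open scoped ENNReal NNReal

namespace Pool.Agent.U26.TK

noncomputable section

variable {n : ℕ}

/-! ### The ratio -/

theorem vol_pos {K : Set (EuclideanSpace ℝ (Fin n))} (hK : K.Nonempty) {δ : ℝ} (hδ : 0 < δ) :
    0 < volume (thickening δ K) :=
  isOpen_thickening.measure_pos volume (hK.mono (self_subset_thickening hδ K))

theorem vol_fin {K : Set (EuclideanSpace ℝ (Fin n))} (hK : IsCompact K) (δ : ℝ) : volume (thickening δ K) ≠ ∞ :=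
  hK.isBounded.thickening.measure_lt_top.ne

theorem lt_ratio {K : Set (EuclideanSpace ℝ (Fin n))} (hK : IsCompact K) (hne : K.Nonempty) {δ c : ℝ} (h0 : 0 < δ)
    (h1 : δ < 1) :
    volume (thickening δ K) < ENNReal.ofReal (δ ^ c) ↔ (c : EReal) < ratio K δ := by
  have hV := ENNReal.toReal_pos (vol_pos hne h0).ne' (vol_fin hK δ)
  rw [ratio, EReal.coe_lt_coe_iff, lt_div_iff_of_neg (Real.log_neg h0 h1),
    ENNReal.lt_ofReal_iff_toReal_lt (vol_fin hK δ), ← Real.log_lt_log_iff hV (by positivity),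
    Real.log_rpow h0]

theorem ratio_lt {K : Set (EuclideanSpace ℝ (Fin n))} (hK : IsCompact K) (hne : K.Nonempty) {δ c : ℝ} (h0 : 0 < δ)
    (h1 : δ < 1) :
    ENNReal.ofReal (δ ^ c) < volume (thickening δ K) ↔ ratio K δ < (c : EReal) := by
  have hV := ENNReal.toReal_pos (vol_pos hne h0).ne' (vol_fin hK δ)
  rw [ratio, EReal.coe_lt_coe_iff, div_lt_iff_of_neg (Real.log_neg h0 h1),
    ENNReal.ofReal_lt_iff_lt_toReal (by positivity) (vol_fin hK δ),
    ← Real.log_lt_log_iff (by positivity) hV, Real.log_rpow h0]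

theorem frequently_small {p : ℝ → Prop} (h : ∀ k : ℕ, ∃ δ : ℝ, 0 < δ ∧ δ < 1 / ((k : ℝ) + 1) ∧ p δ) :
    ∃ᶠ δ in 𝓝[>] (0 : ℝ), p δ := by
  rw [Filter.frequently_iff]
  intro U hU
  obtain ⟨u, hu, hsub⟩ := mem_nhdsGT_iff_exists_Ioo_subset.1 hU
  obtain ⟨k, hk⟩ := exists_nat_one_div_lt (show (0 : ℝ) < u from hu)
  obtain ⟨δ, h1, h2, h3⟩ := h k
  exact ⟨δ, hsub ⟨h1, h2.trans hk⟩, h3⟩

theorem zero_le_liminf {K : Set (EuclideanSpace ℝ (Fin n))} (hK : IsCompact K) (hne : K.Nonempty) :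
    0 ≤ liminf (ratio K) (𝓝[>] 0) := by
  refine le_of_forall_lt fun b hb => ?_
  obtain ⟨q, hq1, hq2⟩ := EReal.lt_iff_exists_real_btwn.1 hb
  have hq : q < 0 := by exact_mod_cast hq2
  refine hq1.trans_le (le_liminf_of_le (by isBoundedDefault) ?_)
  have h1 : Tendsto (fun δ : ℝ => δ ^ (-q)) (𝓝[>] 0) (𝓝 0) := by
    have := (Real.continuousAt_rpow_const (0 : ℝ) (-q) (Or.inr (by linarith))).tendsto
    rw [Real.zero_rpow (by linarith)] at this
    exact this.mono_left nhdsWithin_le_nhds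
  have hV := ENNReal.toReal_pos (vol_pos hne one_pos).ne' (vol_fin hK 1)
  have h2 : ∀ᶠ δ : ℝ in 𝓝[>] 0, δ ^ (-q) < ((volume (thickening 1 K)).toReal)⁻¹ :=
    h1.eventually_lt_const (by positivity)
  have h3 : ∀ᶠ δ : ℝ in 𝓝[>] 0, δ < 1 :=
    (eventually_lt_nhds one_pos).filter_mono nhdsWithin_le_nhds
  filter_upwards [h2, h3, self_mem_nhdsWithin] with δ ha hb hc
  have hc' : 0 < δ := hc
  refine ((lt_ratio hK hne hc' hb).1 ?_).le
  rw [ENNReal.lt_ofReal_iff_toReal_lt (vol_fin hK δ)]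
  have h4 : (volume (thickening δ K)).toReal ≤ (volume (thickening 1 K)).toReal :=
    ENNReal.toReal_mono (vol_fin hK 1) (measure_mono (thickening_mono hb.le K))
  refine h4.trans_lt ?_
  rw [Real.rpow_neg hc'.le] at ha
  rwa [inv_lt_inv₀ (by positivity) hV] at ha

theorem liminf_le_limsup' (K : Set (EuclideanSpace ℝ (Fin n))) :
    liminf (ratio K) (𝓝[>] 0) ≤ limsup (ratio K) (𝓝[>] 0) := liminf_le_limsup

theorem lowerMinkowski_le {K : Set (EuclideanSpace ℝ (Fin n))} (hK : IsCompact K) (hne : K.Nonempty) :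
    lowerMinkowski K ≤ (n : EReal) := by
  have h1 := (zero_le_liminf hK hne).trans (liminf_le_limsup' K)
  calc lowerMinkowski K ≤ (n : EReal) - 0 := EReal.sub_le_sub le_rfl h1
    _ = n := sub_zero _

/-! ### Lower Minkowski dimension -/

theorem dense_lower {K0 : Set (EuclideanSpace ℝ (Fin n))} (h0 : IsKakeya K0) (hne : K0.Nonempty) {c : ℝ}
    (hc : (c : EReal) < limsup (ratio K0) (𝓝[>] 0)) {r : ℝ} (hr : 0 < r) :
    Dense {K : KSpace n | ∃ δ : ℝ, 0 < δ ∧ δ < r ∧
      volume (thickening δ (K : Set (EuclideanSpace ℝ (Fin n)))) < ENNReal.ofReal (δ ^ c)} := by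
  refine (dense_copies h0).mono fun K' hK' => ?_
  obtain ⟨κ, C, hκ, hκ1, hC, hvol⟩ := volume_copies hne hK'
  obtain ⟨c', hc1, hc2⟩ := EReal.lt_iff_exists_real_btwn.1 hc
  have hcc : c < c' := by exact_mod_cast hc1
  have hf : ∃ᶠ δ in 𝓝[>] (0 : ℝ), (c' : EReal) < ratio K0 δ :=
    frequently_lt_of_lt_limsup (by isBoundedDefault) hc2
  have h1 : Tendsto (fun δ : ℝ => C.toReal * δ ^ (c' - c)) (𝓝[>] 0) (𝓝 (C.toReal * 0)) := by
    refine Tendsto.const_mul _ ?_
    have := (Real.continuousAt_rpow_const (0 : ℝ) (c' - c) (Or.inr (by linarith))).tendsto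
    rw [Real.zero_rpow (by linarith)] at this
    exact this.mono_left nhdsWithin_le_nhds
  rw [mul_zero] at h1
  have h2 : ∀ᶠ δ : ℝ in 𝓝[>] 0, C.toReal * δ ^ (c' - c) < κ ^ c :=
    h1.eventually_lt_const (by positivity)
  have h3 : ∀ᶠ δ : ℝ in 𝓝[>] 0, δ < 1 :=
    (eventually_lt_nhds one_pos).filter_mono nhdsWithin_le_nhds
  have h4 : ∀ᶠ δ : ℝ in 𝓝[>] 0, δ < r :=
    (eventually_lt_nhds hr).filter_mono nhdsWithin_le_nhds
  obtain ⟨δ, ha, hb, hd, he, hg⟩ := (hf.and_eventually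
    (h2.and (h3.and (h4.and self_mem_nhdsWithin)))).exists
  have hδ : 0 < δ := hg
  refine ⟨κ * δ, by positivity, ?_, ?_⟩
  · nlinarith
  · have h5 : volume (thickening δ K0) < ENNReal.ofReal (δ ^ c') :=
      (lt_ratio h0.1 hne hδ hd).2 ha
    calc volume (thickening (κ * δ) (K' : Set (EuclideanSpace ℝ (Fin n)))) ≤ C * volume (thickening δ K0) := hvol δ hδ
      _ ≤ C * ENNReal.ofReal (δ ^ c') := by gcongr
      _ = ENNReal.ofReal (C.toReal * δ ^ c') := by
          rw [ENNReal.ofReal_mul ENNReal.toReal_nonneg, ENNReal.ofReal_toReal hC]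
      _ < ENNReal.ofReal ((κ * δ) ^ c) := by
          rw [ENNReal.ofReal_lt_ofReal_iff (by positivity), Real.mul_rpow hκ.le hδ.le]
          have h6 : δ ^ c' = δ ^ (c' - c) * δ ^ c := by
            rw [← Real.rpow_add hδ]; ring_nf
          rw [h6, ← mul_assoc]
          exact mul_lt_mul_of_pos_right hb (by positivity)

theorem typical_limsup {K0 : Set (EuclideanSpace ℝ (Fin n))} (h0 : IsKakeya K0) (hne : K0.Nonempty) :
    ∀ᶠ K : KSpace n in residual (KSpace n),
      limsup (ratio K0) (𝓝[>] 0) ≤ limsup (ratio (K : Set (EuclideanSpace ℝ (Fin n)))) (𝓝[>] 0) := by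
  have h : ∀ᶠ K : KSpace n in residual (KSpace n), ∀ q : ℚ, ∀ k : ℕ,
      ((q : ℝ) : EReal) < limsup (ratio K0) (𝓝[>] 0) → ∃ δ : ℝ, 0 < δ ∧ δ < 1 / ((k : ℝ) + 1) ∧
        volume (thickening δ (K : Set (EuclideanSpace ℝ (Fin n)))) < ENNReal.ofReal (δ ^ (q : ℝ)) := by
    rw [eventually_countable_forall]
    intro q
    rw [eventually_countable_forall]
    intro k
    by_cases hq : ((q : ℝ) : EReal) < limsup (ratio K0) (𝓝[>] 0)
    · have := residual_of_dense_open (isOpen_lower (n := n) (q : ℝ) (1 / ((k : ℝ) + 1)))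
        (dense_lower h0 hne hq (by positivity))
      filter_upwards [this] with K hK _ using hK
    · exact Eventually.of_forall fun K hK => absurd hK hq
  filter_upwards [h] with K hK
  refine le_of_forall_lt fun b hb => ?_
  obtain ⟨q, hq1, hq2⟩ := EReal.lt_iff_exists_rat_btwn.1 hb
  refine hq1.trans_le (le_limsup_of_frequently_le ?_ (by isBoundedDefault))
  refine (frequently_small (p := fun δ => ((q : ℝ) : EReal) ≤ ratio (K : Set (EuclideanSpace ℝ (Fin n))) δ) fun k => ?_)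
  obtain ⟨δ, h1, h2, h3⟩ := hK q k hq2
  have h4 : δ < 1 := h2.trans_le (by
    rw [div_le_one (by positivity)]
    have : (0 : ℝ) ≤ k := Nat.cast_nonneg k
    linarith)
  exact ⟨δ, h1, h2, ((lt_ratio K.2.1 K.1.nonempty h1 h4).1 h3).le⟩

theorem typical_lower {K0 : Set (EuclideanSpace ℝ (Fin n))} (h0 : IsKakeya K0) (hne : K0.Nonempty) :
    ∀ᶠ K : KSpace n in residual (KSpace n), lowerMinkowski (K : Set (EuclideanSpace ℝ (Fin n))) ≤ lowerMinkowski K0 := by
  filter_upwards [typical_limsup h0 hne] with K hK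
  exact EReal.sub_le_sub le_rfl hK

/-! ### Upper Minkowski dimension -/

theorem dense_upper {c r : ℝ} (hc : 0 < c) (hr : 0 < r) :
    Dense {K : KSpace n | ∃ δ : ℝ, 0 < δ ∧ δ < r ∧
      ENNReal.ofReal (δ ^ c) < volume (thickening δ (K : Set (EuclideanSpace ℝ (Fin n))))} := by
  refine dense_ball.mono fun K' hK' => ?_
  obtain ⟨x, ρ, hρ, hsub⟩ := hK'
  have h1 : Tendsto (fun δ : ℝ => ENNReal.ofReal (δ ^ c)) (𝓝[>] 0) (𝓝 (ENNReal.ofReal 0)) := by
    refine (ENNReal.continuous_ofReal.tendsto _).comp ?_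
    have := (Real.continuousAt_rpow_const (0 : ℝ) c (Or.inr hc.le)).tendsto
    rw [Real.zero_rpow hc.ne'] at this
    exact this.mono_left nhdsWithin_le_nhds
  rw [ENNReal.ofReal_zero] at h1
  have h2 : ∀ᶠ δ : ℝ in 𝓝[>] 0, ENNReal.ofReal (δ ^ c) < volume (ball x ρ) :=
    h1.eventually_lt_const (measure_ball_pos volume x hρ)
  have h3 : ∀ᶠ δ : ℝ in 𝓝[>] 0, δ < r :=
    (eventually_lt_nhds hr).filter_mono nhdsWithin_le_nhds
  obtain ⟨δ, ha, hb, hd⟩ := (h2.and (h3.and self_mem_nhdsWithin)).exists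
  have hδ : 0 < δ := hd
  exact ⟨δ, hδ, hb, ha.trans_le (measure_mono (hsub.trans (self_subset_thickening hδ _)))⟩

theorem typical_upper :
    ∀ᶠ K : KSpace n in residual (KSpace n), upperMinkowski (K : Set (EuclideanSpace ℝ (Fin n))) = (n : EReal) := by
  have h : ∀ᶠ K : KSpace n in residual (KSpace n), ∀ q : ℚ, ∀ k : ℕ,
      (0 : ℝ) < q → ∃ δ : ℝ, 0 < δ ∧ δ < 1 / ((k : ℝ) + 1) ∧
        ENNReal.ofReal (δ ^ (q : ℝ)) < volume (thickening δ (K : Set (EuclideanSpace ℝ (Fin n)))) := by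
    rw [eventually_countable_forall]
    intro q
    rw [eventually_countable_forall]
    intro k
    by_cases hq : (0 : ℝ) < q
    · have := residual_of_dense_open (isOpen_upper (n := n) (q : ℝ) (1 / ((k : ℝ) + 1)))
        (dense_upper hq (by positivity))
      filter_upwards [this] with K hK _ using hK
    · exact Eventually.of_forall fun K hK => absurd hK hq
  filter_upwards [h] with K hK
  have h1 : liminf (ratio (K : Set (EuclideanSpace ℝ (Fin n)))) (𝓝[>] 0) = 0 := by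
    refine le_antisymm ?_ (zero_le_liminf K.2.1 K.1.nonempty)
    refine le_of_forall_gt fun b hb => ?_
    obtain ⟨q, hq1, hq2⟩ := EReal.lt_iff_exists_rat_btwn.1 hb
    have hq0 : (0 : ℝ) < q := by exact_mod_cast hq1
    refine lt_of_le_of_lt (liminf_le_of_frequently_le ?_ (by isBoundedDefault)) hq2
    refine (frequently_small (p := fun δ => ratio (K : Set (EuclideanSpace ℝ (Fin n))) δ ≤ ((q : ℝ) : EReal)) fun k => ?_)
    obtain ⟨δ, h1, h2, h3⟩ := hK q k hq0
    have h4 : δ < 1 := h2.trans_le (by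
      rw [div_le_one (by positivity)]
      have : (0 : ℝ) ≤ k := Nat.cast_nonneg k
      linarith)
    exact ⟨δ, h1, h2, ((ratio_lt K.2.1 K.1.nonempty h1 h4).1 h3).le⟩
  rw [upperMinkowski, h1, sub_zero]

/-! ### Hausdorff measures and Hausdorff dimension -/

theorem hausdorff_copies {K0 K' : Set (EuclideanSpace ℝ (Fin n))} (h : Copies K0 K') {s : ℝ} (hs : 0 < s)
    (h0 : μH[s] K0 = 0) : μH[s] K' = 0 := by
  obtain ⟨ι, _, c, T, P, hP, hK⟩ := h
  refine measure_mono_null hK (measure_union_null ?_ ?_)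
  · refine measure_iUnion_null fun i => ?_
    have h1 : LipschitzWith ‖(T i : (EuclideanSpace ℝ (Fin n)) →L[ℝ] (EuclideanSpace ℝ (Fin n)))‖₊ (fun x => c i + T i x) := by
      refine LipschitzWith.of_dist_le_mul fun x y => ?_
      rw [dist_add_left]
      exact (T i : (EuclideanSpace ℝ (Fin n)) →L[ℝ] (EuclideanSpace ℝ (Fin n))).lipschitz.dist_le_mul x y
    have h2 := h1.hausdorffMeasure_image_le hs.le K0
    rw [h0, mul_zero] at h2
    exact nonpos_iff_eq_zero.1 h2
  · have : NullSingletonClass (μH[s] : Measure (EuclideanSpace ℝ (Fin n))) := Measure.nullSingletonClass_hausdorff (EuclideanSpace ℝ (Fin n)) hs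
    exact hP.measure_zero _

theorem typical_measure {K0 : Set (EuclideanSpace ℝ (Fin n))} (h0 : IsKakeya K0) {s : ℝ} (hs : 0 < s)
    (hz : μH[s] K0 = 0) : ∀ᶠ K : KSpace n in residual (KSpace n), μH[s] (K : Set (EuclideanSpace ℝ (Fin n))) = 0 := by
  have h : ∀ᶠ K : KSpace n in residual (KSpace n), ∀ k : ℕ, Small s (1 / ((k : ℝ≥0∞) + 1)) (K : Set (EuclideanSpace ℝ (Fin n))) := by
    rw [eventually_countable_forall]
    intro k
    refine residual_of_dense_open (isOpen_small s _) ((dense_copies h0).mono fun K' hK' => ?_)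
    refine small_of_zero hs (hausdorff_copies hK' hs hz) ?_
    exact ENNReal.div_pos one_ne_zero (by finiteness)
  filter_upwards [h] with K hK
  refine zero_of_small hs fun ε hε => ?_
  obtain ⟨k, hk⟩ := ENNReal.exists_inv_nat_lt hε.ne'
  obtain ⟨t, h1, h2, h3⟩ := hK k
  refine ⟨t, h1, h2, h3.trans (lt_of_le_of_lt ?_ hk)⟩
  rw [one_div]
  exact ENNReal.inv_le_inv.2 le_self_add

theorem typical_dimH {K0 : Set (EuclideanSpace ℝ (Fin n))} (h0 : IsKakeya K0) :
    ∀ᶠ K : KSpace n in residual (KSpace n), dimH (K : Set (EuclideanSpace ℝ (Fin n))) ≤ dimH K0 := by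
  by_cases htop : dimH K0 = ∞
  · exact Eventually.of_forall fun K => by rw [htop]; exact le_top
  obtain ⟨d, hd⟩ : ∃ d : ℝ≥0, (d : ℝ≥0∞) = dimH K0 := ⟨_, ENNReal.coe_toNNReal htop⟩
  have h : ∀ᶠ K : KSpace n in residual (KSpace n), ∀ k : ℕ,
      μH[((d + 1 / ((k : ℝ≥0) + 1) : ℝ≥0) : ℝ)] (K : Set (EuclideanSpace ℝ (Fin n))) = 0 := by
    rw [eventually_countable_forall]
    intro k
    refine typical_measure h0 (by positivity) (hausdorffMeasure_of_dimH_lt ?_)
    rw [← hd, ENNReal.coe_lt_coe]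
    exact lt_add_of_pos_right _ (by positivity)
  filter_upwards [h] with K hK
  rw [← hd]
  refine ENNReal.le_of_forall_pos_le_add fun ε hε _ => ?_
  obtain ⟨k, hk⟩ := exists_nat_one_div_lt (show (0 : ℝ≥0) < ε from hε)
  have h1 : dimH (K : Set (EuclideanSpace ℝ (Fin n))) ≤ ((d + 1 / ((k : ℝ≥0) + 1) : ℝ≥0) : ℝ≥0∞) :=
    dimH_le_of_hausdorffMeasure_ne_top (by rw [hK k]; exact ENNReal.zero_ne_top)
  refine h1.trans ?_
  rw [← ENNReal.coe_add, ENNReal.coe_le_coe]
  exact add_le_add le_rfl hk.le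

/-! ### Abstract consequences -/

theorem exists_min {X α : Type*} [TopologicalSpace X] [CompleteLinearOrder α] [TopologicalSpace α]
    [OrderTopology α] [FirstCountableTopology α] [Nonempty X] (g : X → α)
    (h : ∀ x0, ∀ᶠ x in residual X, g x ≤ g x0) :
    ∃ m, (∀ x, m ≤ g x) ∧ ∀ᶠ x in residual X, g x = m := by
  obtain ⟨u, -, hu, hur⟩ := exists_seq_tendsto_sInf (range_nonempty g) (OrderBot.bddBelow _)
  refine ⟨sInf (range g), fun x => sInf_le ⟨x, rfl⟩, ?_⟩
  have h1 : ∀ᶠ x in residual X, ∀ k, g x ≤ u k := by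
    rw [eventually_countable_forall]
    intro k
    obtain ⟨x0, hx0⟩ := hur k
    rw [← hx0]
    exact h x0
  filter_upwards [h1] with x hx
  exact le_antisymm (ge_of_tendsto' hu hx) (sInf_le ⟨x, rfl⟩)

theorem iff_not_meagre {X α : Type*} [TopologicalSpace X] [BaireSpace X] [Nonempty X]
    [LinearOrder α] (g : X → α) (h : ∀ x0, ∀ᶠ x in residual X, g x ≤ g x0) {m : α}
    (hm : ∀ x, g x ≤ m) : (∀ x, g x = m) ↔ ¬ IsMeagre {x | g x = m} := by
  constructor
  · intro h1 h2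
    have h3 : {x | g x = m} = univ := eq_univ_of_forall h1
    rw [h3, IsMeagre, compl_univ] at h2
    obtain ⟨x, hx⟩ := (dense_of_mem_residual h2).nonempty
    exact hx
  · intro h1 x0
    by_contra hne
    refine h1 ?_
    have h2 : g x0 < m := lt_of_le_of_ne (hm x0) hne
    filter_upwards [h x0] with x hx h3
    exact absurd (show g x = m from h3) (hx.trans_lt h2).ne

end

end Pool.Agent.U26.TK
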